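import Pool.Agent.Run7.h670.MY.Fin
import Pool.Agent.Run7.h299.MY.DIR
import Pool.Agent.Run7.h834.MY.CS
import Pool.Agent.Run7.h631.MY.DBALL
import Pool.Agent.Run7.h631.MY.DCAKE
import Pool.Agent.Run7.h742.MY.D_STEP
import Pool.Agent.Run7.h491.MY.D_CS2
import Pool.Agent.Run7.h491.MY.D_RED
import Pool.Agent.Run7.h19.MY.DKK
import Pool.Agent.Run7.h865.MY.D_ROT
import Pool.Agent.Run7.h865.MY.D_PLANE
import Pool.Agent.Run7.h958.MY.N_BATH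
import Pool.Agent.Run7.h216.MY.N_DIR
import Pool.Agent.Run7.h459.MY.N_LINE
import Pool.Agent.Run7.h593.MY.Phase
import Pool.Agent.Run7.h376.MY.N_PIT

/-!
# A March-Young bound for all particle numbers, constant depending on `N / q`

Problem MP_2c73ad_mp, the weaker statement with other constants.  For all `q, N ≥ 1` and every
`ρ ≥ 0` on `ℝ³` with `∫ ρ = N`, `√ρ ∈ H¹` and `ρ^(5/3)` integrable there is an admissible family with
`T ≤ (31/5) (N/q)^(4/3) q^(-2/3) K_c ∫ ρ^(5/3) + ∫ |∇√ρ|²`.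

The definitions (`IsSobolev`, `IsFamily`, `kinetic`) are in `Pool/Agent/Run7/h670/MY/Defs.lean`.
-/

set_option autoImplicit false

open MeasureTheory Set Filter Topology Real

namespace Pool.Agent.Results.MP_2c73ad_mp.AllParticleNumbers

open Pool.Agent.Run7.h670.MY

/-- **A March-Young bound for all particle numbers.**  Let `q, N ≥ 1`.  For every `ρ ≥ 0` on `ℝ³`
with `∫ ρ = N`, `√ρ ∈ H¹(ℝ³)` (weak gradient `G`) and `ρ^(5/3)` integrable there are `N` orthonormal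
functions `φ` with `q` spin states and density `ρ` such that
`T ≤ (31/5) (N/q)^(4/3) q^(-2/3) K_c ∫ ρ^(5/3) + ∫ |∇√ρ|²`, `K_c = (3/5) (6 π²)^(2/3)`. -/
theorem result (q N : ℕ) (hq : 1 ≤ q) (hN : 1 ≤ N) (ρ : V 3 → ℝ) (G : Fin 3 → V 3 → ℂ)
    (h0 : ∀ x, 0 ≤ ρ x) (hi : Integrable ρ) (hρ : ∫ x, ρ x = N)
    (hG : IsSobolev (fun x => ((√(ρ x) : ℝ) : ℂ)) G)
    (hI : Integrable fun x => ρ x ^ (5 / 3 : ℝ)) :
    ∃ (φ : Fin N → Fin q → V 3 → ℂ) (g : Fin N → Fin q → Fin 3 → V 3 → ℂ), IsFamily ρ φ g ∧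
      kinetic g ≤ 31 / 5 * ((N : ℝ) / q) ^ (4 / 3 : ℝ) *
        ((q : ℝ) ^ (-(2 / 3) : ℝ) * (3 / 5 * (6 * π ^ 2) ^ (2 / 3 : ℝ)) *
          ∫ x, ρ x ^ (5 / 3 : ℝ)) + ∑ i, ∫ x, ‖G i x‖ ^ 2 :=
  fin_three (Run7.h865.MY.t_D_PLANE
      (Run7.h491.MY.t_D_RED (Pool.Agent.Run7.h742.MY.t_D_STEP Run7.h19.MY.t_D_KK
        Run7.h865.MY.t_D_ROT))
      Pool.Agent.Run7.h299.MY.t_DIR Run7.h834.MY.t_CS)
    Run7.h491.MY.t_D_CS2 (Run7.h631.MYC.t_D_CAKE Run7.h631.MY.t_D_BALL)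
    (Run7.h459.MY.t_N_LINE (Run7.h216.MY.t_N_DIR Run7.h958.MY.t_N_BATH))
    Run7.h593.MYP.t_N_PHASE Pool.Agent.Run7.h376.MY.t_N_PIT hq hN h0 hi hρ hG hI

end Pool.Agent.Results.MP_2c73ad_mp.AllParticleNumbers
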