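import Pool.Agent.Run7.h670.MY.Spin
import Pool.Agent.Run7.h299.MY.DIR
import Pool.Agent.Run7.h305.MY.COST
import Pool.Agent.Run7.h305.MY.CAKE
import Pool.Agent.Run7.h175.MY.NC
import Pool.Agent.Run7.h799.MY.BALL
import Pool.Agent.Run7.h799.MY.BAR
import Pool.Agent.Run7.h834.MY.CS
import Pool.Agent.Run7.h834.MY.INT
import Pool.Agent.Run7.h834.MY.POLY

/-!
# The March-Young bound for at most two particles per spin state

Problem MP_2c73ad_mp.  Let `q ≥ 1`, `1 ≤ N ≤ 2 q`.  For every density `ρ ≥ 0` on `ℝ³` with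
`∫ ρ = N` and `√ρ ∈ H¹` there are `N` orthonormal functions with `q` spin states and density `ρ`
whose kinetic energy is at most `q^(-2/3) K_c ∫ ρ^(5/3) + ∫ |∇√ρ|²`, where
`K_c = (3/5) (6 π²)^(2/3)` is the semiclassical constant.

The definitions (`IsSobolev`, `IsFamily`, `kinetic`) are in `Pool/Agent/Run7/h670/MY/Defs.lean`,
`Kc` is in `Pool/Agent/Run7/h670/MY/Geo.lean`.
-/

set_option autoImplicit false

open MeasureTheory Set Filter Topology Real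
open scoped ContDiff RealInnerProductSpace ENNReal

namespace Pool.Agent.Results.MP_2c73ad_mp.TwoPerSpinState

open Pool.Agent.Run7.h670.MY

/-- The numerical inequality for the distribution over the spin states. -/
lemma spin_num {q s : ℝ} (hs : 0 < s) (hsq : s ≤ q) :
    s * (2 / (q + s)) ^ (5 / 3 : ℝ) ≤ q ^ (-(2 / 3) : ℝ) := by
  have hq : 0 < q := hs.trans_le hsq
  have h1 : 0 ≤ s * (2 / (q + s)) ^ (5 / 3 : ℝ) := by positivity
  have h2 : 0 ≤ q ^ (-(2 / 3) : ℝ) := by positivity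
  rw [← pow_le_pow_iff_left₀ h1 h2 (n := 3) (by norm_num)]
  have e1 : ((2 / (q + s)) ^ (5 / 3 : ℝ)) ^ 3 = (2 / (q + s)) ^ 5 := by
    rw [← Real.rpow_natCast, ← Real.rpow_mul (by positivity)]
    norm_num
  have e2 : (q ^ (-(2 / 3) : ℝ)) ^ 3 = (q ^ 2)⁻¹ := by
    rw [← Real.rpow_natCast, ← Real.rpow_mul hq.le]
    norm_num
  rw [mul_pow, e1, e2, div_pow, ← mul_div_assoc, div_le_iff₀ (by positivity),
    ← div_eq_inv_mul, le_div_iff₀ (by positivity)]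
  obtain ⟨t, rfl⟩ : ∃ t, q = s + t := ⟨q - s, by ring⟩
  have ht : 0 ≤ t := by linarith
  have : (s + t + s) ^ 5 - s ^ 3 * 2 ^ 5 * (s + t) ^ 2 =
      16 * s ^ 4 * t + 48 * s ^ 3 * t ^ 2 + 40 * s ^ 2 * t ^ 3 + 10 * s * t ^ 4 + t ^ 5 := by ring
  have h3 : 0 ≤ 16 * s ^ 4 * t + 48 * s ^ 3 * t ^ 2 + 40 * s ^ 2 * t ^ 3 + 10 * s * t ^ 4 +
    t ^ 5 := by positivity
  linarith

/-- **The March-Young bound for at most two particles per spin state.**  Let `1 ≤ N ≤ 2 q`.  For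
every `ρ ≥ 0` on `ℝ³` with `∫ ρ = N` and `√ρ ∈ H¹(ℝ³)` (weak gradient `G`) there are `N`
orthonormal functions `φ` with `q` spin states and density `ρ` such that
`T ≤ q^(-2/3) K_c ∫ ρ^(5/3) + ∫ |∇√ρ|²`, `K_c = (3/5) (6 π²)^(2/3)`. -/
theorem result (q N : ℕ) (hN : 1 ≤ N) (hNq : N ≤ 2 * q) (ρ : V 3 → ℝ) (G : Fin 3 → V 3 → ℂ)
    (h0 : ∀ x, 0 ≤ ρ x) (hi : Integrable ρ) (hρ : ∫ x, ρ x = N)
    (hG : IsSobolev (fun x => ((√(ρ x) : ℝ) : ℂ)) G) :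
    ∃ (φ : Fin N → Fin q → V 3 → ℂ) (g : Fin N → Fin q → Fin 3 → V 3 → ℂ), IsFamily ρ φ g ∧
      ENNReal.ofReal (kinetic g) ≤
        ENNReal.ofReal ((q : ℝ) ^ (-(2 / 3) : ℝ) * (3 / 5 * (6 * Real.pi ^ 2) ^ (2 / 3 : ℝ))) *
          (∫⁻ x, ENNReal.ofReal (ρ x ^ (5 / 3 : ℝ))) +
        ENNReal.ofReal (∑ i, ∫ x, ‖G i x‖ ^ 2) := by
  change ∃ (φ : Fin N → Fin q → V 3 → ℂ) (g : Fin N → Fin q → Fin 3 → V 3 → ℂ), IsFamily ρ φ g ∧
      ENNReal.ofReal (kinetic g) ≤ ENNReal.ofReal ((q : ℝ) ^ (-(2 / 3) : ℝ) * Kc) *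
          (∫⁻ x, ENNReal.ofReal (ρ x ^ (5 / 3 : ℝ))) +
        ENNReal.ofReal (∑ i, ∫ x, ‖G i x‖ ^ 2)
  rcases Nat.lt_or_ge q N with hlt | hle
  swap
  · obtain ⟨φ, g, h1, h2⟩ := few hN hle h0 hi hρ hG
    refine ⟨φ, g, h1, ?_⟩
    rw [h2]
    exact le_add_self
  obtain ⟨s, r, rfl, rfl⟩ : ∃ s r, q = s + r ∧ N = s + r + s :=
    ⟨N - q, 2 * q - N, by omega, by omega⟩
  have hs : 1 ≤ s := by omega
  have hs0 : (0:ℝ) < s := by exact_mod_cast hs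
  have hr0 : (0:ℝ) ≤ r := Nat.cast_nonneg r
  set M : ℝ := ((s + r + s : ℕ) : ℝ) with hM
  have hM' : M = s + r + s := by rw [hM]; push_cast; ring
  have hM0 : 0 < M := by rw [hM']; linarith
  have h20 : 0 ≤ 2 / M := by positivity
  obtain ⟨a, b, p, t, c, hON, hc, k1, k2, k3, k4⟩ := geo3 Pool.Agent.Run7.h299.MY.t_DIR
    (Run7.h305.MYC.t_CAKE Pool.Agent.Run7.h799.MY.t_BALL)
    (Pool.Agent.Run7.h799.MY.t_BAR Pool.Agent.Run7.h175.MY.t_NC)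
    Run7.h834.MY.t_NUM
    (Run7.h305.MY.t_COST Run7.h834.MY.t_CS Run7.h834.MY.t_INT Run7.h834.MY.t_POLY)
    (ρ := fun x => 2 / M * ρ x) (fun x => mul_nonneg h20 (h0 x)) (hi.const_mul _)
    (by rw [integral_const_mul, hρ, div_mul_cancel₀ _ hM0.ne'])
  obtain ⟨φ, g, h1, h2⟩ := many s r hs h0 hi hM' hρ hG hON hc k1 k2 k3
  refine ⟨φ, g, h1, ?_⟩
  rw [h2, add_comm]
  set X : ℝ := (c ^ 2)⁻¹ * ∫ x, (2 / M * ρ x) *
        (hh p t c ⟪a, x⟫ ⟪b, x⟫ + hh p t c ⟪a, x⟫ ⟪b, x⟫ ^ 2) with hX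
  set I := ∫⁻ x, ENNReal.ofReal (ρ x ^ (5 / 3 : ℝ)) with hI
  have e1 : ∫⁻ x, ENNReal.ofReal ((2 / M * ρ x) ^ (5 / 3 : ℝ)) =
      ENNReal.ofReal ((2 / M) ^ (5 / 3 : ℝ)) * I := by
    rw [hI, ← lintegral_const_mul' _ _ ENNReal.ofReal_ne_top]
    refine lintegral_congr fun x => ?_
    rw [Real.mul_rpow h20 (h0 x), ENNReal.ofReal_mul (by positivity)]
  rw [e1] at k4
  have hKc : 0 ≤ Kc := by unfold Kc; positivity
  refine (ENNReal.ofReal_add_le).trans ?_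
  gcongr
  calc ENNReal.ofReal (s * X) = ENNReal.ofReal s * ENNReal.ofReal X :=
        ENNReal.ofReal_mul hs0.le
    _ ≤ ENNReal.ofReal s * (ENNReal.ofReal Kc * (ENNReal.ofReal ((2 / M) ^ (5 / 3 : ℝ)) * I)) := by
        gcongr
    _ = ENNReal.ofReal (s * (2 / M) ^ (5 / 3 : ℝ) * Kc) * I := by
        rw [ENNReal.ofReal_mul (by positivity), ENNReal.ofReal_mul hs0.le]
        ring
    _ ≤ _ := by
        gcongr
        have := spin_num (q := ((s + r : ℕ) : ℝ)) (s := s) hs0 (by push_cast; linarith)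
        have e : ((s + r : ℕ) : ℝ) + s = M := by rw [hM']; push_cast; ring
        rwa [e] at this

end Pool.Agent.Results.MP_2c73ad_mp.TwoPerSpinState
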